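import Mathlib
import Pool.Agent.TH841.NO.Fin

/-!
# The normal order of the 2-isogeny Selmer rank in one-parameter families

`E_t : y² = x³ + a(t) x² + b(t) x = x (x - D(t) u₀(t)) (x - D(t) u₁(t))`. Here `u₀`, `u₁` and
`u₂ = u₀ - u₁` are polynomials with integer coefficients, `u_k` being a constant times a product of
`n_k` irreducible polynomials, and `D = c ∏ g_i` with `m` irreducible `g_i`, all these irreducible
polynomials being different. Under balance conditions for the `n_k`, for almost all `t` (in all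
short intervals) the rank `r` of `E_t` and the second descent exponent `f₂` are bounded, and the
2-isogeny Selmer rank `s = f₁ + f₂ - 2` is `(κ + o(1)) log log |t|`, with an explicit constant `κ`.
-/

set_option autoImplicit false

namespace Pool.Agent.Results.MP_e2b281_nt.NormalOrder

open Finset Polynomial

/-- the curve `y² = x³ + a x² + b x` over `ℚ` -/
def E (a b : ℤ) : WeierstrassCurve ℚ := ⟨0, (a : ℚ), 0, (b : ℚ), 0⟩

/-- the rank of the group of the rational points -/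
noncomputable def rank (W : WeierstrassCurve ℚ) : ℕ := Module.finrank ℤ W.toAffine.Point

/-- `N² = b₁ M⁴ + a M² e² + (b / b₁) e⁴` has a solution with `(M, e) ≠ (0, 0)` in `K` -/
def Solvable (K : Type) [Field K] (a b b₁ : ℤ) : Prop := ∃ N M e : K, (M ≠ 0 ∨ e ≠ 0) ∧
  N ^ 2 = (b₁ : K) * M ^ 4 + (a : K) * M ^ 2 * e ^ 2 + ((b / b₁ : ℤ) : K) * e ^ 4

/-- the squarefree `b₁ ∣ b` for which the quartic is everywhere locally solvable -/
def ELS (a b : ℤ) : Set ℤ := {b₁ | Squarefree b₁ ∧ b₁ ∣ b ∧ Solvable ℝ a b b₁ ∧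
  ∀ (p : ℕ) [Fact p.Prime], Solvable ℚ_[p] a b b₁}

/-- the descent exponent `f₁` of `(a, b)`: `2 ^ f₁` is the number of these `b₁` (a power of two) -/
noncomputable def f₁ (a b : ℤ) : ℕ := Nat.log 2 (ELS a b).ncard

/-- the descent exponent `f₂`: the same for `(- 2 a, a² - 4 b)` -/
noncomputable def f₂ (a b : ℤ) : ℕ := f₁ (-2 * a) (a ^ 2 - 4 * b)

/-- the 2-isogeny Selmer rank -/
noncomputable def s (a b : ℤ) : ℤ := f₁ a b + f₂ a b - 2

/-- `u_k = a_k ∏ f_{k,i}` -/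
noncomputable def u {n : Fin 3 → ℕ} (a : Fin 3 → ℤ) (f : ∀ k : Fin 3, Fin (n k) → ℤ[X])
    (k : Fin 3) : ℤ[X] := C (a k) * ∏ i, f k i

/-- `D = c ∏ g_i` -/
noncomputable def D {m : ℕ} (c : ℤ) (g : Fin m → ℤ[X]) : ℤ[X] := C c * ∏ i, g i

/-- `v` is a square modulo `f` in `ℚ[t]` -/
def SqMod (f v : ℤ[X]) : Prop := ∃ q : ℚ[X], f.map (Int.castRingHom ℚ) ∣
  (q ^ 2 - v.map (Int.castRingHom ℚ))

/-- `- D u₁`, `- D u₀`, `D u₀` -/
noncomputable def v {n : Fin 3 → ℕ} {m : ℕ} (a : Fin 3 → ℤ) (f : ∀ k : Fin 3, Fin (n k) → ℤ[X])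
    (c : ℤ) (g : Fin m → ℤ[X]) : Fin 3 → ℤ[X] :=
  ![-(D c g * u a f 1), -(D c g * u a f 0), D c g * u a f 0]

open Classical in
/-- the constant `κ = n₀ + n₁ - (n₂ + s) / 2 + r / 2`, where `s` is the number of the factors of
`u₂` modulo which `D u₀` is a square, and `r` the number of the `g_i` modulo which `u₀ u₁` is not
a square -/
noncomputable def κ {n : Fin 3 → ℕ} {m : ℕ} (a : Fin 3 → ℤ) (f : ∀ k : Fin 3, Fin (n k) → ℤ[X])
    (c : ℤ) (g : Fin m → ℤ[X]) : ℝ :=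
  (n 0 : ℝ) + n 1 -
    ((n 2 : ℝ) + (univ.filter (fun i => SqMod (f 2 i) (D c g * u a f 0))).card) / 2 +
    ((univ.filter (fun i => ¬ SqMod (g i) (u a f 0 * u a f 1))).card : ℝ) / 2

open Classical in
/-- the balance condition: either `2 n_k < n₀ + n₁ + n₂` for all `k`, or
`2 n_k + s_k ≤ n₀ + n₁ + n₂` for all `k`, where `s_k` is the number of the factors `f_{k,i}` modulo
which `v_k` is a square -/
def Balanced {n : Fin 3 → ℕ} {m : ℕ} (a : Fin 3 → ℤ) (f : ∀ k : Fin 3, Fin (n k) → ℤ[X])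
    (c : ℤ) (g : Fin m → ℤ[X]) : Prop :=
  (∀ k, 2 * n k < n 0 + n 1 + n 2) ∨
    ∀ k, 2 * n k + (univ.filter (fun i => SqMod (f k i) (v a f c g k))).card ≤ n 0 + n 1 + n 2

open Classical in
/-- **Theorem.** Let `u_k = a_k ∏_{i < n_k} f_{k,i}`, `k = 0, 1, 2`, with `u₀ - u₁ = u₂`, and
`D = c ∏_{i < m} g_i`, where `a_k`, `c` are nonzero and the `n₀ + n₁ + n₂ + m` polynomials
`f_{k,i}`, `g_i` with integer coefficients are irreducible of positive degree and pairwise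
non-associated; assume the balance condition. For all `δ, ε > 0` and `L` there are `R` and `M₀` such
that for `M ≥ M₀` and `|N| ≤ M ^ L` all the integers `N < t ≤ N + M` with at most `ε M` exceptions
have the following property: `A = D(t) u₀(t)`, `B = D(t) u₁(t)` and `A - B` are nonzero, and for
`E : y² = x³ + a x² + b x = x (x - A) (x - B)`, `a = -(A + B)`, `b = A B`, the rank is at most `R`,
`f₂ ≤ R`, and the 2-isogeny Selmer rank `s = f₁ + f₂ - 2` satisfies
`|s - κ log log M| ≤ δ log log M`. -/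
theorem result (n : Fin 3 → ℕ) (m : ℕ) (a : Fin 3 → ℤ) (f : ∀ k : Fin 3, Fin (n k) → ℤ[X])
    (c : ℤ) (g : Fin m → ℤ[X]) (ha : ∀ k, a k ≠ 0) (hc : c ≠ 0)
    (hf : ∀ k i, Irreducible (f k i) ∧ 0 < (f k i).natDegree)
    (hg : ∀ i, Irreducible (g i) ∧ 0 < (g i).natDegree)
    (hff : ∀ k i l j, (⟨k, i⟩ : Σ k : Fin 3, Fin (n k)) ≠ ⟨l, j⟩ → ¬ Associated (f k i) (f l j))
    (hgg : ∀ i j, i ≠ j → ¬ Associated (g i) (g j)) (hfg : ∀ k i j, ¬ Associated (f k i) (g j))
    (hu : u a f 0 - u a f 1 = u a f 2) (hb : Balanced a f c g)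
    (δ ε : ℝ) (L : ℕ) (hδ : 0 < δ) (hε : 0 < ε) :
    ∃ R M₀ : ℕ, ∀ (N : ℤ) (M : ℕ), M₀ ≤ M → |N| ≤ (M : ℤ) ^ L →
      (((Ioc N (N + (M : ℤ))).filter (fun t => ¬ ∀ A B : ℤ,
        A = (D c g * u a f 0).eval t → B = (D c g * u a f 1).eval t →
        A ≠ 0 ∧ B ≠ 0 ∧ A ≠ B ∧ rank (E (-(A + B)) (A * B)) ≤ R ∧ f₂ (-(A + B)) (A * B) ≤ R ∧
        |(s (-(A + B)) (A * B) : ℝ) - κ a f c g * Real.log (Real.log M)| ≤
          δ * Real.log (Real.log M))).card : ℝ) ≤ ε * M := by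
  have hirr : Pool.Agent.TH841.PT.Irr (Pool.Agent.TH841.TR.allf g f) := by
    refine ⟨?_, ?_, ?_⟩
    · rintro (x | i)
      · exact (hf x.1 x.2).1
      · exact (hg i).1
    · rintro (x | i)
      · exact (hf x.1 x.2).2
      · exact (hg i).2
    · rintro (x | i) (y | j) hxy
      · exact hff x.1 x.2 y.1 y.2 (fun h => hxy (congrArg Sum.inl h))
      · exact hfg x.1 x.2 j
      · exact fun h => hfg y.1 y.2 i h.symm
      · exact hgg i j (fun h => hxy (congrArg Sum.inr h))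
  have hbal : (∀ k, 2 * n k < n 0 + n 1 + n 2) ∨
      Pool.Agent.TH841.TR.Bal (Pool.Agent.TH841.LS.DG c g) a f := by
    rcases hb with h | h
    · exact Or.inl h
    · refine Or.inr (Pool.Agent.TH841.TR.bal_of (v := v a f c g) rfl rfl rfl fun k => ?_)
      exact h k
  exact Pool.Agent.TH841.NO.final a f c g ha hc hirr hu hbal δ ε L hδ hε

end Pool.Agent.Results.MP_e2b281_nt.NormalOrder
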