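import Mathlib
import Pool.Agent.TH841.NO.Fin

/-!
# The normal order of the 2-isogeny Selmer rank for coprime pairs in short squares

`E : y² = x (x - D a) (x - D b)` for coprime integers `a`, `b` in a short square of side `X`. For
almost all the pairs the rank and the second descent exponent `f₂` are bounded and the 2-isogeny
Selmer rank is `(3 / 2 + o(1)) log log X`.
-/

set_option autoImplicit false

namespace Pool.Agent.Results.MP_e2b281_nt.NormalOrderPairs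

open Finset

/-- the curve `y² = x³ + a x² + b x` over `ℚ` -/
def E (a b : ℤ) : WeierstrassCurve ℚ := ⟨0, (a : ℚ), 0, (b : ℚ), 0⟩

/-- the rank of the group of the rational points -/
noncomputable def rank (W : WeierstrassCurve ℚ) : ℕ := Module.finrank ℤ W.toAffine.Point

/-- `N² = b₁ M⁴ + a M² e² + (b / b₁) e⁴` has a solution with `(M, e) ≠ (0, 0)` in `K` -/
def Solvable (K : Type) [Field K] (a b b₁ : ℤ) : Prop := ∃ N M e : K, (M ≠ 0 ∨ e ≠ 0) ∧
  N ^ 2 = (b₁ : K) * M ^ 4 + (a : K) * M ^ 2 * e ^ 2 + ((b / b₁ : ℤ) : K) * e ^ 4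

/-- the squarefree `b₁ ∣ b` for which the quartic is everywhere locally solvable -/
def ELS (a b : ℤ) : Set ℤ := {b₁ | Squarefree b₁ ∧ b₁ ∣ b ∧ Solvable ℝ a b b₁ ∧
  ∀ (p : ℕ) [Fact p.Prime], Solvable ℚ_[p] a b b₁}

/-- the descent exponent `f₁` of `(a, b)`: `2 ^ f₁` is the number of these `b₁` (a power of two) -/
noncomputable def f₁ (a b : ℤ) : ℕ := Nat.log 2 (ELS a b).ncard

/-- the descent exponent `f₂`: the same for `(- 2 a, a² - 4 b)` -/
noncomputable def f₂ (a b : ℤ) : ℕ := f₁ (-2 * a) (a ^ 2 - 4 * b)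

/-- the 2-isogeny Selmer rank -/
noncomputable def s (a b : ℤ) : ℤ := f₁ a b + f₂ a b - 2

open Classical in
/-- **Theorem.** Let `D` be a nonzero integer, `δ, ε > 0` and `L` a natural number. There are `R`
and `X₀` such that for `X ≥ X₀` and `|N₁|, |N₂| ≤ X ^ L` all the coprime pairs `(α, β)` in the
square `N₁ < α ≤ N₁ + X`, `N₂ < β ≤ N₂ + X` with at most `ε X²` exceptions have the following
property: `A = D α`, `B = D β` and `A - B` are nonzero, and for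
`E : y² = x³ + a x² + b x = x (x - A) (x - B)`, `a = -(A + B)`, `b = A B`, the rank is at most `R`,
`f₂ ≤ R`, and the 2-isogeny Selmer rank `s = f₁ + f₂ - 2` satisfies
`|s - (3 / 2) log log X| ≤ δ log log X`. -/
theorem result (D : ℤ) (hD : D ≠ 0) (δ ε : ℝ) (L : ℕ) (hδ : 0 < δ) (hε : 0 < ε) :
    ∃ R X₀ : ℕ, ∀ (N₁ N₂ : ℤ) (X : ℕ), X₀ ≤ X → N₁.natAbs ≤ X ^ L → N₂.natAbs ≤ X ^ L →
      (((Icc 1 X ×ˢ Icc 1 X).filter (fun t : ℕ × ℕ =>
        IsCoprime (N₁ + (t.1 : ℤ)) (N₂ + (t.2 : ℤ)) ∧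
        ¬ ∀ A B : ℤ, A = D * (N₁ + (t.1 : ℤ)) → B = D * (N₂ + (t.2 : ℤ)) →
        A ≠ 0 ∧ B ≠ 0 ∧ A ≠ B ∧ rank (E (-(A + B)) (A * B)) ≤ R ∧ f₂ (-(A + B)) (A * B) ≤ R ∧
        |(s (-(A + B)) (A * B) : ℝ) - 3 / 2 * Real.log (Real.log X)| ≤
          δ * Real.log (Real.log X))).card : ℝ) ≤ ε * X ^ 2 :=
  Pool.Agent.TH841.NO.final2 D hD δ ε L hδ hε

end Pool.Agent.Results.MP_e2b281_nt.NormalOrderPairs
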