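import Mathlib
import Pool.Agent.TH715.CN.Fin6
import Pool.Agent.TH715.CN.Iso3

/-!
# Parity of the rank and the 2-isogeny Selmer rank in thin families of congruent number curves

`E_D : y² = x³ - D² x`, so `a = 0` and `b = - D²`. Let `D` be a product of `m ≥ 1` different primes
congruent to 3 modulo 8. The 2-Selmer rank `s` of `E_D` given by the descent via 2-isogeny is
exactly `m - 1` for odd `m` and `m - 2` for even `m`, so it is even and not bounded. If `Q` is any
set of primes congruent to 3 modulo 8, at most `y`, with `|Q| ≥ y ^ (19 / 20)`, then for at least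
five ninths of the subsets `T` of `Q` with `m` elements the rank `r` of `E_D`, `D` the product of the
elements of `T`, is zero, so that `r ≡ s` modulo 2.
-/

set_option autoImplicit false

namespace Pool.Agent.Results.MP_e2b281_nt.ParityThinTwists

open Finset

open Pool.Agent.TH715.CN.ISO (Qu SQ SelRank)

/-- the curve `y² = x³ + a x² + b x` -/
def Cv (a b : ℤ) : WeierstrassCurve ℚ := ⟨0, (a : ℚ), 0, (b : ℚ), 0⟩

/-- the rank of the group of the rational points -/
noncomputable def rk (a b : ℤ) : ℕ := Module.finrank ℤ (Cv a b).toAffine.Point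

/-- the rank and the 2-Selmer rank given by the descent via 2-isogeny have the same parity -/
def Par (a b : ℤ) : Prop := ∃ s : ℕ, SelRank a b s ∧ rk a b % 2 = s % 2

/-- the product of the elements of `T` -/
def prd (T : Finset ℕ) : ℤ := ∏ q ∈ T, (q : ℤ)

/-- `C (m + 1) N ^ (-1 / 40)` -/
noncomputable def err (C : ℝ) (m N : ℕ) : ℝ := C * ((m : ℝ) + 1) * (N : ℝ) ^ (-(1 / 40) : ℝ)

/-- `Q` is a set of primes congruent to 3 modulo 8, at most `y`, with `|Q| ≥ y ^ (19 / 20)` -/
def IsThin (y : ℕ) (Q : Finset ℕ) : Prop :=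
  (∀ q ∈ Q, q.Prime ∧ q % 8 = 3 ∧ q ≤ y) ∧ (y : ℝ) ^ (19 / 20 : ℝ) ≤ Q.card

open Classical in
/-- **Theorem.** (1) For every nonempty finite set `T` of primes congruent to 3 modulo 8, with `m`
elements and the product `D`, the 2-Selmer rank `s` of `y² = x³ - D² x` given by the descent via
2-isogeny is `2 ⌊(m - 1) / 2⌋`. (2) There are `C ≥ 1` and `k` such that for all `m ≥ 1` and `y` and
all sets `Q` of primes congruent to 3 modulo 8, at most `y`, with `|Q| ≥ y ^ (19 / 20)` and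
`|Q| ≥ C (m + 1) ^ k`, for at least `(5 / 9 - C (m + 1) |Q| ^ (-1 / 40)) binom(|Q|, m)` of the
subsets `T` of `Q` with `m` elements the rank of this curve is zero and has the same parity as
`s`. -/
theorem result :
    (∀ T : Finset ℕ, T.Nonempty → (∀ q ∈ T, q.Prime ∧ q % 8 = 3) →
      SelRank 0 (-(prd T) ^ 2) (2 * ((T.card - 1) / 2))) ∧
    ∃ (C : ℝ) (k : ℕ), 1 ≤ C ∧ ∀ (m y : ℕ) (Q : Finset ℕ), 1 ≤ m → IsThin y Q →
      C * ((m : ℝ) + 1) ^ k ≤ Q.card →
      (5 / 9 - err C m Q.card) * (Q.card.choose m : ℝ) ≤ ((Q.powersetCard m).filter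
        (fun T => rk 0 (-(prd T) ^ 2) = 0 ∧ Par 0 (-(prd T) ^ 2))).card := by
  have h0 : ∀ T : Finset ℕ, T.Nonempty → (∀ q ∈ T, q.Prime ∧ q % 8 = 3) →
      SelRank 0 (-(prd T) ^ 2) (2 * ((T.card - 1) / 2)) := fun T hne hT =>
    Pool.Agent.TH715.CN.ISO.selRank hT hne
  refine ⟨h0, ?_⟩
  obtain ⟨C, k, hC, h⟩ := Pool.Agent.TH715.CN.main9
  refine ⟨C, k, hC, ?_⟩
  intro m y Q hm hQ hmQ
  have h2 := (h m y Q hQ.1 hQ.2 hmQ).2
  refine h2.trans ?_
  have hE : ∀ T : Finset ℕ, Cv 0 (-(prd T) ^ 2) = Pool.Agent.TH715.CN.ET T := by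
    intro T
    unfold Cv prd Pool.Agent.TH715.CN.ET Pool.Agent.W307.RT.Sh
    congr 1
    push_cast
    rfl
  have h4 : (Q.powersetCard m).filter Pool.Agent.TH715.CN.Good ⊆ (Q.powersetCard m).filter
      (fun T => rk 0 (-(prd T) ^ 2) = 0 ∧ Par 0 (-(prd T) ^ 2)) := by
    intro T hT
    rw [mem_filter] at hT ⊢
    refine ⟨hT.1, ?_⟩
    have hTm := mem_powersetCard.1 hT.1
    have h5 := hT.2.1
    have h6 : rk 0 (-(prd T) ^ 2) = 0 := by
      unfold rk
      rw [hE T]
      exact h5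
    refine ⟨h6, _, h0 T ?_ fun q hq => ?_, ?_⟩
    · rw [← card_pos, hTm.2]
      omega
    · exact ⟨(hQ.1 q (hTm.1 hq)).1, (hQ.1 q (hTm.1 hq)).2.1⟩
    · rw [h6]
      omega
  exact_mod_cast card_le_card h4

end Pool.Agent.Results.MP_e2b281_nt.ParityThinTwists
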